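import Mathlib

/-!
# Row SC2 of the board `ctt`, part a: the Newton polygon
-/

set_option autoImplicit false

namespace Pool.CND

namespace SC2

/-- the four orders: equality of the two least, or a unique least one -/
theorem tri (q T w : ℤ) (hq : 3 ≤ q) (hT : T < 0) :
    ((q - 1) * w = -T ∨ q * (q + 1) * w = -T ∨ q ^ 2 * (q - 1) * w = T) ∨
    (w < q ^ 4 * w ∧ w < q * T + q ^ 3 * w ∧ w < T + q * w) ∨
    (T + q * w < q ^ 4 * w ∧ T + q * w < q * T + q ^ 3 * w ∧ T + q * w < w) ∨
    (q * T + q ^ 3 * w < q ^ 4 * w ∧ q * T + q ^ 3 * w < T + q * w ∧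
      q * T + q ^ 3 * w < w) ∨
    (q ^ 4 * w < q * T + q ^ 3 * w ∧ q ^ 4 * w < T + q * w ∧ q ^ 4 * w < w) := by
  have hq0 : 0 < q := by linarith
  have hq1 : 0 < q - 1 := by linarith
  have hqq : 9 ≤ q ^ 2 := by nlinarith
  have hqqq : 27 ≤ q ^ 3 := by nlinarith
  have hq4 : 81 ≤ q ^ 4 := by nlinarith
  have he : 0 < -T := by linarith
  rcases lt_trichotomy ((q - 1) * w) (-T) with h1 | h1 | h1
  · rcases lt_trichotomy (q * (q + 1) * w) (-T) with h2 | h2 | h2
    · rcases lt_trichotomy (q ^ 2 * (q - 1) * w) T with h3 | h3 | h3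
      · right; right; right; right
        have hw : w < 0 := by
          by_contra hc
          rw [not_lt] at hc
          have : 0 ≤ q ^ 2 * (q - 1) * w := mul_nonneg (mul_nonneg (by linarith) hq1.le) hc
          linarith
        have k1 : 0 < q * (T - q ^ 2 * (q - 1) * w) := mul_pos hq0 (by linarith)
        have k2 : 0 ≤ (q ^ 4 - q - q ^ 3 + q ^ 2) * (-w) :=
          mul_nonneg (by nlinarith) (by linarith)
        have k3 : 0 < (q ^ 4 - 1) * (-w) := mul_pos (by linarith) (by linarith)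
        exact ⟨by linarith, by linarith, by linarith⟩
      · left; right; right; exact h3
      · right; right; right; left
        have k1 : 0 < q * (q ^ 2 * (q - 1) * w - T) := mul_pos hq0 (by linarith)
        have k2 : 0 < (q - 1) * (-T - q * (q + 1) * w) := mul_pos hq1 (by linarith)
        refine ⟨by linarith, by linarith, ?_⟩
        rcases le_or_gt w 0 with hw | hw
        · have k3 : 0 ≤ (q ^ 3 - 1) * (-w) := mul_nonneg (by linarith) (by linarith)
          have k4 : 0 < q * (-T) := mul_pos hq0 he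
          linarith
        · have k3 : 0 < q * (-T - q * (q + 1) * w) := mul_pos hq0 (by linarith)
          have k4 : 0 < (q ^ 2 + 1) * w := mul_pos (by linarith) hw
          linarith
    · left; right; left; exact h2
    · right; right; left
      have hw : 0 < w := by
        by_contra hc
        rw [not_lt] at hc
        have : q * (q + 1) * w ≤ 0 :=
          mul_nonpos_of_nonneg_of_nonpos (mul_nonneg hq0.le (by linarith)) hc
        linarith
      have k1 : 0 < (q - 1) * (q * (q + 1) * w + T) := mul_pos hq1 (by linarith)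
      have k2 : 0 ≤ (q ^ 4 - q) * w := mul_nonneg (by nlinarith) hw.le
      exact ⟨by linarith, by linarith, by linarith⟩
  · left; left; exact h1
  · right; left
    have hw : 0 < w := by
      by_contra hc
      rw [not_lt] at hc
      have : (q - 1) * w ≤ 0 := mul_nonpos_of_nonneg_of_nonpos hq1.le hc
      linarith
    have k1 : 0 < (q ^ 4 - 1) * w := mul_pos (by linarith) hw
    have k2 : 0 < (q ^ 2 + q + 1) * ((q - 1) * w + T) := mul_pos (by nlinarith) (by linarith)
    have k3 : 0 < (q ^ 2 + 1) * (-T) := mul_pos (by linarith) he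
    exact ⟨by linarith, by linarith, by linarith⟩

/-- kind A: the other terms -/
theorem kA {q T w : ℤ} (hq : 3 ≤ q) (hT : T < 0) (h : (q - 1) * w = -T) :
    0 < w ∧ w + 1 ≤ q ^ 4 * w ∧ w + 1 ≤ q * T + q ^ 3 * w ∧ T + q * w = w ∧
      -T < w * (q * (q + 1)) := by
  have hq1 : 0 < q - 1 := by linarith
  have hqq : 9 ≤ q ^ 2 := by nlinarith
  have hqqq : 27 ≤ q ^ 3 := by nlinarith
  have hq4 : 81 ≤ q ^ 4 := by nlinarith
  have hw : 0 < w := by
    by_contra hc
    rw [not_lt] at hc
    have : (q - 1) * w ≤ 0 := mul_nonpos_of_nonneg_of_nonpos hq1.le hc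
    linarith
  have k1 : 0 < (q ^ 4 - 1) * w := mul_pos (by linarith) hw
  have k2 : 0 < (q ^ 3 - q ^ 2 + q - 1) * w := mul_pos (by nlinarith) hw
  have k3 : 0 < (q ^ 2 + 1) * w := mul_pos (by linarith) hw
  refine ⟨hw, ?_, ?_, by linarith, ?_⟩
  · have : w < q ^ 4 * w := by linarith
    omega
  · have : w < q * T + q ^ 3 * w := by
      have e : q * T + q ^ 3 * w - w = (q ^ 3 - q ^ 2 + q - 1) * w := by
        linear_combination q * h
      linarith
    omega
  · nlinarith

/-- kind B: the other terms -/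
theorem kB {q T w : ℤ} (hq : 3 ≤ q) (hT : T < 0) (h : q * (q + 1) * w = -T) :
    0 < w ∧ T + q * w + 1 ≤ q ^ 4 * w ∧ T + q * w + 1 ≤ w ∧
      q * T + q ^ 3 * w = T + q * w := by
  have hq0 : 0 < q := by linarith
  have hw : 0 < w := by
    by_contra hc
    rw [not_lt] at hc
    have : q * (q + 1) * w ≤ 0 :=
      mul_nonpos_of_nonneg_of_nonpos (mul_nonneg hq0.le (by linarith)) hc
    linarith
  have hqq : 9 ≤ q ^ 2 := by nlinarith
  have hqqq : 27 ≤ q ^ 3 := by nlinarith
  have hq4 : 81 ≤ q ^ 4 := by nlinarith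
  refine ⟨hw, ?_, ?_, by linear_combination (q - 1) * h⟩
  · have k2 : 0 ≤ (q ^ 4 + q ^ 2) * w := mul_nonneg (by linarith) hw.le
    have e : q ^ 4 * w - (T + q * w) = (q ^ 4 + q ^ 2) * w := by linear_combination -h
    have k3 : 0 < (q ^ 4 + q ^ 2) * w := mul_pos (by linarith) hw
    omega
  · have k3 : 0 < (q ^ 2 + 1) * w := mul_pos (by linarith) hw
    have e : w - (T + q * w) = (q ^ 2 + 1) * w := by linear_combination -h
    omega

/-- kind C: the other terms -/
theorem kC {q T w : ℤ} (hq : 3 ≤ q) (hT : T < 0) (h : q ^ 2 * (q - 1) * w = T) :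
    w < 0 ∧ q * T + q ^ 3 * w + 1 ≤ T + q * w ∧ q * T + q ^ 3 * w + 1 ≤ w ∧
      q ^ 4 * w = q * T + q ^ 3 * w := by
  have hq0 : 0 < q := by linarith
  have hq1 : 0 < q - 1 := by linarith
  have hqq : 9 ≤ q ^ 2 := by nlinarith
  have hqqq : 27 ≤ q ^ 3 := by nlinarith
  have hw : w < 0 := by
    by_contra hc
    rw [not_lt] at hc
    have : 0 ≤ q ^ 2 * (q - 1) * w := mul_nonneg (mul_nonneg (by linarith) hq1.le) hc
    linarith
  refine ⟨hw, ?_, ?_, by linear_combination q * h⟩
  · have k1 : 0 < (q - 1) * (-T) := mul_pos hq1 (by linarith)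
    have k2 : 0 < (q ^ 3 - q) * (-w) := mul_pos (by nlinarith) (by linarith)
    have e : T + q * w - (q * T + q ^ 3 * w) = (q - 1) * (-T) + (q ^ 3 - q) * (-w) := by ring
    omega
  · have k1 : 0 < q * (-T) := mul_pos hq0 (by linarith)
    have k2 : 0 < (q ^ 3 - 1) * (-w) := mul_pos (by nlinarith) (by linarith)
    have e : w - (q * T + q ^ 3 * w) = q * (-T) + (q ^ 3 - 1) * (-w) := by ring
    omega

end SC2

end Pool.CND
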