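import Pool.Agent.H37.CTT.Stmts
import Pool.Agent.H46.CTN.FN1
import Pool.Agent.H17.CTN.N41
import Pool.Agent.H72.CTN.FN2
import Pool.Agent.H40.CTO.P41
import Pool.Agent.H71.CTT.SC2a

/-!
# Row SC2 of the board `ctt`: the cover (II) and the orders of the roots at a place at infinity
-/

set_option autoImplicit false

namespace Pool.CND

open Finset

namespace SC2

/-- change of basis -/
theorem basis (k F L : Type) [Field k] [Field F] [Algebra F k] [Field L]
    [Algebra k L] (n : ℕ) (t : L) (X : Fin n → L)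
    (G₀ : Subgroup (Matrix.SpecialLinearGroup (Fin n) F)) (ρ : G₀ →* (L ≃ₐ[k] L))
    (h : Matrix (Fin n) (Fin n) F) (hC : NCover k F L t X G₀ ρ) (hh : h.det ≠ 0) :
    ∃ (G₁ : Subgroup (Matrix.SpecialLinearGroup (Fin n) F)) (ρ₁ : G₁ →* (L ≃ₐ[k] L)),
      NCover k F L t (fun i => ∑ j, cst k F L (h j i) * X j) G₁ ρ₁ ∧
      ∀ g ∈ G₁, ∃ g₀ ∈ G₀, g₀.1 * h = h * g.1 := by
  set κ : F →+* L := (algebraMap k L).comp (algebraMap F k) with hκ
  have hcst : ∀ c : F, cst k F L c = κ c := fun c => rfl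
  set G₁ := G₀.comap (fn2conj h hh) with hG₁
  let φ : G₁ →* G₀ := (fn2conj h hh).subgroupComap G₀
  have e : h⁻¹ * h = 1 := Matrix.nonsing_inv_mul _ (isUnit_iff_ne_zero.2 hh)
  have hmm : ∀ g : G₁, (φ g).1.1 * h = h * g.1.1 := by
    intro g
    have hm : (φ g).1.1 = h * g.1.1 * h⁻¹ := rfl
    rw [hm, Matrix.mul_assoc, e, Matrix.mul_one]
  refine ⟨G₁, ρ.comp φ, ⟨?_, ?_⟩, ?_⟩
  · intro g i
    have hm2 := hmm g
    show ρ (φ g) (∑ j, κ (h j i) * X j) = ∑ j, κ (g.1.1 j i) * ∑ l, κ (h l j) * X l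
    rw [fn2sum κ h g.1.1 X i, ← hm2, ← fn2sum κ (φ g).1.1 h X i, map_sum]
    refine Finset.sum_congr rfl fun j _ => ?_
    rw [map_mul, hC.act (φ g) j]
    congr 1
    exact (ρ (φ g)).commutes _
  · have hsurj : ∀ g₀ : G₀, ∃ g : G₁, φ g = g₀ := by
      intro g₀
      obtain ⟨g', hg'⟩ := fn2conj_surj h hh g₀.1
      refine ⟨⟨g', ?_⟩, ?_⟩
      · rw [hG₁, Subgroup.mem_comap, hg']
        exact g₀.2
      · exact Subtype.ext hg'
    have hinj : ∀ g : G₁, φ g = 1 → g = 1 := by
      intro g hg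
      apply Subtype.ext
      exact fn2conj_inj h hh g.1 (congrArg Subtype.val hg)
    refine ⟨?_, hC.cov.trans, ?_, ?_⟩
    · rw [injective_iff_map_eq_one]
      intro g hg
      apply hinj
      apply hC.cov.inj
      rw [map_one]
      exact hg
    · intro x
      rw [← hC.cov.fixed x]
      constructor
      · intro hx g₀
        obtain ⟨g, rfl⟩ := hsurj g₀
        exact hx g
      · intro hx g
        exact hx (φ g)
    · intro P hP g hg
      exact hinj g (hC.cov.unram P hP (φ g) hg)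
  · intro g hg
    exact ⟨(φ ⟨g, hg⟩).1, (φ ⟨g, hg⟩).2, hmm ⟨g, hg⟩⟩

open N41 in
/-- the form is bilinear -/
theorem bil {p f q : ℕ} {k F L : Type} [Field k] [Field F] [Field L] [Algebra F k] [Algebra k L]
    (h : Dat k L p f q 1 1 (1 : k)) (hF : Nat.card F = q) (t : L) (X : Fin 4 → L)
    (M : Matrix (Fin 4) (Fin 4) F) (hM : ∀ i j, sB q t (X i) (X j) = cst k F L (M i j))
    (u v : Fin 4 → F) :
    sB q t (rt (k := k) X u) (rt (k := k) X v) = cst k F L (u ⬝ᵥ (M.mulVec v)) := by
  have hexp : ∀ x y : L, sB q t x y = x ^ q ^ 2 * y ^ q ^ 0 - x ^ q ^ 0 * y ^ q ^ 2 +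
      (x ^ q ^ 3 * y ^ q ^ 1 - x ^ q ^ 1 * y ^ q ^ 3) -
      t * (x ^ q ^ 2 * y ^ q ^ 1 - x ^ q ^ 1 * y ^ q ^ 2) := by
    intro x y
    unfold sB
    rw [h.frobq, mul_pow, mul_pow, ← pow_mul, ← pow_mul, ← pow_succ]
    simp only [pow_zero, pow_one]
  have key : ∀ a b : ℕ, rt (k := k) X u ^ q ^ a * rt (k := k) X v ^ q ^ b =
      ∑ i, ∑ j, cst k F L (u i) * cst k F L (v j) * (X i ^ q ^ a * X j ^ q ^ b) := by
    intro a b
    rw [rt_pow h hF, rt_pow h hF, Finset.sum_mul_sum]
    refine Finset.sum_congr rfl fun i _ => Finset.sum_congr rfl fun j _ => ?_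
    ring
  rw [hexp, key, key, key, key, key, key]
  simp only [← Finset.sum_sub_distrib, ← Finset.sum_add_distrib, Finset.mul_sum]
  have e1 : cst k F L (u ⬝ᵥ (M.mulVec v)) =
      ∑ i, ∑ j, cst k F L (u i) * cst k F L (v j) * cst k F L (M i j) := by
    unfold cst
    simp only [Matrix.mulVec, dotProduct, map_sum, map_mul, Finset.mul_sum]
    refine Finset.sum_congr rfl fun i _ => Finset.sum_congr rfl fun j _ => ?_
    ring
  rw [e1]
  refine Finset.sum_congr rfl fun i _ => Finset.sum_congr rfl fun j _ => ?_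
  rw [← hM i j, hexp]
  ring

end SC2

open N41 P41 SC2 in
theorem sc2_thm (hEXI : S_EXI) (hSC1 : S_SC1) (hSC0 : S_SC0) : S_SC2 := by
  classical
  intro p k F _ _ _ _ f q hp hp2 hch hf hq hF
  have hp3 : 3 ≤ p := by
    have := hp.two_le
    omega
  have hq3 : 3 ≤ q := by
    rw [hq]
    calc 3 ≤ p := hp3
      _ = p ^ 1 := (pow_one p).symm
      _ ≤ p ^ f := Nat.pow_le_pow_right hp.pos hf
  have hq2 : 2 ≤ q := by omega
  have hq0 : q ≠ 0 := by omega
  have : Fact p.Prime := ⟨hp⟩
  have : Finite F := Nat.finite_of_card_ne_zero (by omega)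
  -- existence
  obtain ⟨L, iL, iA, t, X, G₀, ρ, hrel0, hind, htr, hC⟩ := FN1.cover p k F f q 4
    (fun l => if l = 0 then 1 else if l = 1 then -Polynomial.X else
      if l = 3 then -Polynomial.X ^ q else 0) (by omega) (by simp) hp hch hf hq hF
  have hR : ∀ i, X i ^ q ^ 4 - t ^ q * X i ^ q ^ 3 - t * X i ^ q + X i = 0 := by
    intro i
    have h := hrel0 i
    unfold FN1.lz at h
    simp only [Finset.sum_range_succ, Finset.sum_range_zero, if_true, if_false,
      one_ne_zero, OfNat.ofNat_ne_zero, OfNat.ofNat_ne_one, map_one, map_neg, map_pow,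
      Polynomial.aeval_X, map_zero, zero_add, pow_zero, pow_one, zero_mul, add_zero] at h
    norm_num at h
    linear_combination h
  have : Finite (Matrix.SpecialLinearGroup (Fin 4) F) :=
    inferInstanceAs (Finite {A : Matrix (Fin 4) (Fin 4) F // A.det = 1})
  have : Finite G₀ := inferInstance
  obtain ⟨hfin, hsep⟩ := TWI.fin_sep ρ t hC.cov
  obtain ⟨P, hP⟩ := hEXI k L t hC.cov.trans hfin hsep
  have ht0 : t ≠ 0 := by
    intro h
    apply htr
    rw [h]
    exact isAlgebraic_zero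
  have hchL : CharP L p := charP_of_injective_algebraMap (algebraMap k L).injective p
  obtain ⟨M, hMdet, hMt, hMd, hMg, hMG⟩ := hSC1 p k F L f q t Polynomial.X 0 X G₀ ρ hp hch hf hq hF
    (by
      intro i
      rw [Polynomial.aeval_X, map_zero]
      linear_combination hR i) hind hC
  rw [Polynomial.aeval_X] at hMg
  -- notation
  have hqz : (3 : ℤ) ≤ q := by exact_mod_cast hq3
  have hq0z : (0 : ℤ) < q := by omega
  have hq1z : (0 : ℤ) < (q : ℤ) - 1 := by omega
  set T : ℤ := P.ord t with hT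
  obtain ⟨A, hAdef⟩ : ∃ A : L, A = -t ^ q := ⟨_, rfl⟩
  obtain ⟨B, hBdef⟩ : ∃ B : L, B = -t := ⟨_, rfl⟩
  have hB0 : B ≠ 0 := by rw [hBdef]; exact neg_ne_zero.2 ht0
  have hBo : P.ord B = T := by rw [hBdef, P.ord_neg]
  have hA0 : A ≠ 0 := by rw [hAdef]; exact neg_ne_zero.2 (pow_ne_zero _ ht0)
  have hAo : P.ord A = (q : ℤ) * T := by rw [hAdef, P.ord_neg, P.ord_pow ht0]
  -- the relation for all combinations
  have hD : Dat k L p f q 1 1 (1 : k) :=
    ⟨hp, hchL, hch, hq, hq2, le_rfl, one_ne_zero, fun h => absurd h one_ne_zero⟩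
  have hrel : ∀ c : Fin 4 → F, rt (k := k) X c ^ q ^ 4 +
      A * rt (k := k) X c ^ q ^ 3 + B * rt (k := k) X c ^ q ^ 1 +
      rt (k := k) X c ^ q ^ 0 = 0 := by
    intro c
    rw [rt_pow hD hF, rt_pow hD hF, rt_pow hD hF, rt_pow hD hF, mul_sum, mul_sum,
      ← sum_add_distrib, ← sum_add_distrib, ← sum_add_distrib]
    refine sum_eq_zero fun i _ => ?_
    have h1 := hR i
    rw [pow_one, pow_zero, pow_one, hAdef, hBdef]
    linear_combination cst k F L (c i) * h1
  have o4 : ∀ x : L, x ≠ 0 → P.ord (x ^ q ^ 4) = (q : ℤ) ^ 4 * P.ord x := by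
    intro x hx
    rw [P.ord_pow hx]
    push_cast
    rfl
  have o3 : ∀ x : L, x ≠ 0 → P.ord (A * x ^ q ^ 3) =
      (q : ℤ) * T + (q : ℤ) ^ 3 * P.ord x := by
    intro x hx
    rw [P.ord_mul _ _ hA0 (pow_ne_zero _ hx), P.ord_pow hx, hAo]
    push_cast
    rfl
  have o1 : ∀ x : L, x ≠ 0 → P.ord (B * x ^ q ^ 1) = T + q * P.ord x := by
    intro x hx
    rw [P.ord_mul _ _ hB0 (pow_ne_zero _ hx), P.ord_pow hx, hBo, pow_one]
  have o0 : ∀ x : L, x ≠ 0 → P.ord (x ^ q ^ 0) = P.ord x := by
    intro x hx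
    rw [pow_zero, pow_one]
  have kinds : ∀ c : Fin 4 → F, rt (k := k) X c ≠ 0 →
      ((q : ℤ) - 1) * P.ord (rt (k := k) X c) = -T ∨
      (q : ℤ) * ((q : ℤ) + 1) * P.ord (rt (k := k) X c) = -T ∨
      (q : ℤ) ^ 2 * ((q : ℤ) - 1) * P.ord (rt (k := k) X c) = T := by
    intro c hx
    have r := hrel c
    obtain ⟨x, hxd⟩ : ∃ x : L, x = rt (k := k) X c := ⟨_, rfl⟩
    rw [← hxd] at hx r ⊢
    have n4 := pow_ne_zero (q ^ 4) hx
    have n3 := mul_ne_zero hA0 (pow_ne_zero (q ^ 3) hx)
    have n1 := mul_ne_zero hB0 (pow_ne_zero (q ^ 1) hx)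
    have n0 := pow_ne_zero (q ^ 0) hx
    rcases tri (q : ℤ) T (P.ord x) hqz hP with h | ⟨h1, h2, h3⟩ | ⟨h1, h2, h3⟩ |
      ⟨h1, h2, h3⟩ | ⟨h1, h2, h3⟩
    · exact h
    · exfalso
      refine no_min4 P n0 (b := x ^ q ^ 4) (c := A * x ^ q ^ 3)
        (d := B * x ^ q ^ 1) (by linear_combination r) ?_ ?_ ?_
      · rw [P.ge_iff n4, o4 x hx, o0 x hx]; omega
      · rw [P.ge_iff n3, o3 x hx, o0 x hx]; omega
      · rw [P.ge_iff n1, o1 x hx, o0 x hx]; omega
    · exfalso
      refine no_min4 P n1 (b := x ^ q ^ 4) (c := A * x ^ q ^ 3)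
        (d := x ^ q ^ 0) (by linear_combination r) ?_ ?_ ?_
      · rw [P.ge_iff n4, o4 x hx, o1 x hx]; omega
      · rw [P.ge_iff n3, o3 x hx, o1 x hx]; omega
      · rw [P.ge_iff n0, o0 x hx, o1 x hx]; omega
    · exfalso
      refine no_min4 P n3 (b := x ^ q ^ 4) (c := B * x ^ q ^ 1)
        (d := x ^ q ^ 0) (by linear_combination r) ?_ ?_ ?_
      · rw [P.ge_iff n4, o4 x hx, o3 x hx]; omega
      · rw [P.ge_iff n1, o1 x hx, o3 x hx]; omega
      · rw [P.ge_iff n0, o0 x hx, o3 x hx]; omega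
    · exfalso
      refine no_min4 P n4 (b := A * x ^ q ^ 3) (c := B * x ^ q ^ 1)
        (d := x ^ q ^ 0) (by linear_combination r) ?_ ?_ ?_
      · rw [P.ge_iff n3, o3 x hx, o4 x hx]; omega
      · rw [P.ge_iff n1, o1 x hx, o4 x hx]; omega
      · rw [P.ge_iff n0, o0 x hx, o4 x hx]; omega
  have g4 : ∀ (x : L) (w : ℤ), P.Ge x w → P.Ge (x ^ q ^ 4) ((q : ℤ) ^ 4 * w) := by
    intro x w h
    have := N41.ge_pow P h (pow_ne_zero 4 hq0)
    push_cast at this
    exact this
  have g3 : ∀ (x : L) (w : ℤ), P.Ge x w →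
      P.Ge (A * x ^ q ^ 3) ((q : ℤ) * T + (q : ℤ) ^ 3 * w) := by
    intro x w h
    have := P.ge_mul (P.ge_ord A) (N41.ge_pow P h (pow_ne_zero 3 hq0))
    rw [hAo] at this
    push_cast at this
    exact this
  have g1 : ∀ (x : L) (w : ℤ), P.Ge x w →
      P.Ge (B * x ^ q ^ 1) (T + q * w) := by
    intro x w h
    have := P.ge_mul (P.ge_ord B) (N41.ge_pow P h (pow_ne_zero 1 hq0))
    rw [hBo] at this
    push_cast at this
    rw [pow_one] at this ⊢
    rw [pow_one] at this
    exact this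
  have g0 : ∀ (x : L) (w : ℤ), P.Ge x w → P.Ge (x ^ q ^ 0) w := by
    intro x w h
    rwa [pow_zero, pow_one]
  -- the thresholds
  have hqq1 : (0 : ℤ) < (q : ℤ) * ((q : ℤ) + 1) := mul_pos hq0z (by omega)
  obtain ⟨N, hN⟩ : ∃ N : ℤ, N = (-T) / ((q : ℤ) * ((q : ℤ) + 1)) + 1 := ⟨_, rfl⟩
  have hN1 : 1 ≤ N := by
    have : 0 ≤ (-T) / ((q : ℤ) * ((q : ℤ) + 1)) := Int.ediv_nonneg (by omega) hqq1.le
    omega
  have hinj : ∀ c : Fin 4 → F, rt (k := k) X c = 0 → c = 0 := fun c h => hind c h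
  have nA : ∀ w : ℤ, ((q : ℤ) - 1) * w = -T → N ≤ w := by
    intro w h
    have h1 := (kA hqz hP h).2.2.2.2
    have : (-T) / ((q : ℤ) * ((q : ℤ) + 1)) < w := Int.ediv_lt_of_lt_mul hqq1 h1
    omega
  have nB : ∀ w : ℤ, (q : ℤ) * ((q : ℤ) + 1) * w = -T → w = N - 1 := by
    intro w h
    rw [hN, ← h, Int.mul_ediv_cancel_left _ hqq1.ne']
    ring
  have fA : ∀ c : Fin 4 → F, rt (k := k) X c ≠ 0 → N ≤ P.ord (rt (k := k) X c) →
      ((q : ℤ) - 1) * P.ord (rt (k := k) X c) = -T := by
    intro c h0 h1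
    rcases kinds c h0 with h | h | h
    · exact h
    · have := nB _ h
      omega
    · have := (kC hqz hP h).1
      omega
  have fB : ∀ c : Fin 4 → F, rt (k := k) X c ≠ 0 → 0 ≤ P.ord (rt (k := k) X c) →
      P.ord (rt (k := k) X c) < N →
      (q : ℤ) * ((q : ℤ) + 1) * P.ord (rt (k := k) X c) = -T := by
    intro c h0 h1 h2
    rcases kinds c h0 with h | h | h
    · have := nA _ h
      omega
    · exact h
    · have := (kC hqz hP h).1
      omega
  have fC : ∀ c : Fin 4 → F, rt (k := k) X c ≠ 0 → P.ord (rt (k := k) X c) < 0 →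
      (q : ℤ) ^ 2 * ((q : ℤ) - 1) * P.ord (rt (k := k) X c) = T := by
    intro c h0 h1
    rcases kinds c h0 with h | h | h
    · have := (kA hqz hP h).1
      omega
    · have := (kB hqz hP h).1
      omega
    · exact h
  have pos : ∀ c : Fin 4 → F, rt (k := k) X c ≠ 0 → 0 ≤ P.ord (rt (k := k) X c) →
      1 ≤ P.ord (rt (k := k) X c) := by
    intro c h0 h1
    rcases kinds c h0 with h | h | h
    · have := (kA hqz hP h).1
      omega
    · have := (kB hqz hP h).1
      omega
    · have := (kC hqz hP h).1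
      omega
  -- the dimensions
  have hW : ∀ (m : ℤ) (c : Fin 4 → F), c ∈ W (F := F) P X m ↔ P.Ge (rt (k := k) X c) m :=
    fun m c => mem_W P X m c
  have hqC : (0 : ℤ) < (q : ℤ) ^ 2 * ((q : ℤ) - 1) := mul_pos (pow_pos hq0z 2) hq1z
  have hA3 : Module.finrank F (Fin 4 → F) ≤ Module.finrank F (W (F := F) P X 0) + 1 := by
    by_cases hall : ∀ c, c ∈ W (F := F) P X 0
    · have h1 : W (F := F) P X 0 = ⊤ := Submodule.eq_top_iff'.2 hall
      rw [h1, finrank_top]
      omega
    · push Not at hall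
      obtain ⟨c₁, hc₁⟩ := hall
      obtain ⟨hy0, hyo⟩ := P.not_ge.1 (fun h => hc₁ ((hW 0 c₁).2 h))
      have hk1 := fC c₁ hy0 hyo
      obtain ⟨e1, e2, e3, e4⟩ := kC hqz hP hk1
      have hU : ∀ c ∈ (⊤ : Submodule F (Fin 4 → F)),
          P.Ge (rt (k := k) X c) (P.ord (rt (k := k) X c₁)) := by
        intro c _
        by_cases h0 : rt (k := k) X c = 0
        · exact Or.inl h0
        · right
          rcases kinds c h0 with h | h | h
          · have := (kA hqz hP h).1
            omega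
          · have := (kB hqz hP h).1
            omega
          · rw [← hk1] at h
            exact (mul_left_cancel₀ hqC.ne' h).ge
      have h1 := step P hq2 hF ⊤ (W (F := F) P X 0) X c₁ hy0 hU
        (fun c _ h => by
          rw [hW]
          by_cases h0 : rt (k := k) X c = 0
          · exact Or.inl h0
          · right
            by_contra h5
            rw [not_le] at h5
            have h6 := fC c h0 h5
            rw [← hk1] at h6
            have h7 := mul_left_cancel₀ hqC.ne' h6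
            have h8 := h.resolve_left h0
            omega) 1 le_rfl
        (by
          intro c hc a ha
          have r := hrel c
          have r₁ := hrel c₁
          have gx := hU c hc
          have gy := P.ge_ord (rt (k := k) X c₁)
          refine frob_inj hp hq hq0 (u := 3) (d := 1) ?_
          refine res P hp hq hq0 3 4 (A := A) (B := 1)
            (Rx := B * rt (k := k) X c ^ q ^ 1 + rt (k := k) X c ^ q ^ 0)
            (Ry := B * rt (k := k) X c₁ ^ q ^ 1 + rt (k := k) X c₁ ^ q ^ 0)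
            hy0 hA0 (o3 _ hy0) ?_ ?_ ?_ (by linear_combination r) (by linear_combination r₁) ha
          · rw [one_mul]
            exact P.ge_mono (g4 _ _ gy) e4.ge
          · exact P.ge_add (P.ge_mono (g1 _ _ gx) e2) (P.ge_mono (g0 _ _ gx) e3)
          · exact P.ge_add (P.ge_mono (g1 _ _ gy) e2) (P.ge_mono (g0 _ _ gy) e3))
      rwa [finrank_top] at h1
  have hA2 : Module.finrank F (W (F := F) P X 0) ≤
      Module.finrank F (W (F := F) P X N) + 2 := by
    by_cases hall : ∀ c ∈ W (F := F) P X 0, c ∈ W (F := F) P X N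
    · have h1 := Submodule.finrank_mono (show W (F := F) P X 0 ≤ W (F := F) P X N from hall)
      omega
    · push Not at hall
      obtain ⟨c₁, hc₁N, hc₁⟩ := hall
      obtain ⟨hy0, hyo⟩ := P.not_ge.1 (fun h => hc₁ ((hW N c₁).2 h))
      have hk1 := fB c₁ hy0 (((hW 0 c₁).1 hc₁N).resolve_left hy0) hyo
      obtain ⟨e1, e2, e3, e4⟩ := kB hqz hP hk1
      have hw1 := nB _ hk1
      have hU : ∀ c ∈ W (F := F) P X 0,
          P.Ge (rt (k := k) X c) (P.ord (rt (k := k) X c₁)) := by
        intro c hc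
        by_cases h0 : rt (k := k) X c = 0
        · exact Or.inl h0
        · right
          rcases lt_or_ge (P.ord (rt (k := k) X c)) N with h5 | h5
          · have h := fB c h0 (((hW 0 c).1 hc).resolve_left h0) h5
            rw [← hk1] at h
            exact (mul_left_cancel₀ hqq1.ne' h).ge
          · omega
      exact step P hq2 hF (W (F := F) P X 0) (W (F := F) P X N) X c₁ hy0 hU
        (by
          intro c hc h
          rw [hW]
          exact P.ge_mono h (by omega)) 2 (by omega)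
        (by
          intro c hc a ha
          have r := hrel c
          have r₁ := hrel c₁
          have gx := hU c hc
          have gy := P.ge_ord (rt (k := k) X c₁)
          refine frob_inj hp hq hq0 (u := 1) (d := 2) ?_
          refine res P hp hq hq0 1 3 (A := B) (B := A)
            (Rx := rt (k := k) X c ^ q ^ 4 + rt (k := k) X c ^ q ^ 0)
            (Ry := rt (k := k) X c₁ ^ q ^ 4 + rt (k := k) X c₁ ^ q ^ 0)
            hy0 hB0 (o1 _ hy0) ?_ ?_ ?_ (by linear_combination r) (by linear_combination r₁) ha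
          · exact P.ge_mono (g3 _ _ gy) e4.ge
          · exact P.ge_add (P.ge_mono (g4 _ _ gx) e2) (P.ge_mono (g0 _ _ gx) e3)
          · exact P.ge_add (P.ge_mono (g4 _ _ gy) e2) (P.ge_mono (g0 _ _ gy) e3))
  have hA1 : Module.finrank F (W (F := F) P X N) ≤ 1 := by
    by_cases hall : ∀ c ∈ W (F := F) P X N, c = 0
    · have h1 : W (F := F) P X N = ⊥ := (Submodule.eq_bot_iff _).2 hall
      rw [h1, finrank_bot]
      omega
    · push Not at hall
      obtain ⟨c₁, hc₁, hc0⟩ := hall
      have hy0 : rt (k := k) X c₁ ≠ 0 := fun h => hc0 (hinj _ h)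
      have hk1 := fA c₁ hy0 (((hW N c₁).1 hc₁).resolve_left hy0)
      obtain ⟨e1, e2, e3, e5, -⟩ := kA hqz hP hk1
      have hsame : ∀ c ∈ W (F := F) P X N, rt (k := k) X c ≠ 0 →
          P.ord (rt (k := k) X c) = P.ord (rt (k := k) X c₁) := by
        intro c hc h0
        have h := fA c h0 (((hW N c).1 hc).resolve_left h0)
        rw [← hk1] at h
        exact mul_left_cancel₀ hq1z.ne' h
      have hU : ∀ c ∈ W (F := F) P X N,
          P.Ge (rt (k := k) X c) (P.ord (rt (k := k) X c₁)) := by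
        intro c hc
        by_cases h0 : rt (k := k) X c = 0
        · exact Or.inl h0
        · exact Or.inr (hsame c hc h0).ge
      have h1 := step P hq2 hF (W (F := F) P X N) ⊥ X c₁ hy0 hU
        (by
          intro c hc h
          rw [Submodule.mem_bot]
          by_contra h5
          have h0 : rt (k := k) X c ≠ 0 := fun h => h5 (hinj _ h)
          have h6 := hsame c hc h0
          have h7 := h.resolve_left h0
          omega) 1 le_rfl
        (by
          intro c hc a ha
          have r := hrel c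
          have r₁ := hrel c₁
          have gx := hU c hc
          have gy := P.ge_ord (rt (k := k) X c₁)
          refine frob_inj hp hq hq0 (u := 0) (d := 1) ?_
          rw [zero_add]
          refine res P hp hq hq0 0 1 (A := 1) (B := B)
            (Rx := rt (k := k) X c ^ q ^ 4 + A * rt (k := k) X c ^ q ^ 3)
            (Ry := rt (k := k) X c₁ ^ q ^ 4 + A * rt (k := k) X c₁ ^ q ^ 3)
            (m := P.ord (rt (k := k) X c₁))
            hy0 one_ne_zero ?_ ?_ ?_ ?_ (by linear_combination r) (by linear_combination r₁) ha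
          · rw [one_mul, o0 _ hy0]
          · exact P.ge_mono (g1 _ _ gy) e5.ge
          · exact P.ge_add (P.ge_mono (g4 _ _ gx) e2) (P.ge_mono (g3 _ _ gx) e3)
          · exact P.ge_add (P.ge_mono (g4 _ _ gy) e2) (P.ge_mono (g3 _ _ gy) e3))
      rwa [finrank_bot, zero_add] at h1
  rw [Module.finrank_fin_fun] at hA3
  have dN : Module.finrank F (W (F := F) P X N) = 1 := by omega
  have d0 : Module.finrank F (W (F := F) P X 0) = 3 := by omega
  -- the small root
  obtain ⟨u, huW, hu0⟩ : ∃ u ∈ W (F := F) P X N, u ≠ 0 := by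
    have : W (F := F) P X N ≠ ⊥ := by
      intro h
      rw [h, finrank_bot] at dN
      omega
    exact Submodule.exists_mem_ne_zero_of_ne_bot this
  have hu1 : rt (k := k) X u ≠ 0 := fun h => hu0 (hinj _ h)
  have hukA := fA u hu1 (((hW N u).1 huW).resolve_left hu1)
  obtain ⟨uw, -, -, -, -⟩ := kA hqz hP hukA
  have huN : ∀ c ∈ W (F := F) P X N, ∃ a : F, a • u = c := by
    intro c hc
    have h1 := (finrank_eq_one_iff_of_nonzero' (⟨u, huW⟩ : W (F := F) P X N)
      (fun h => hu0 (congrArg Subtype.val h))).1 dN ⟨c, hc⟩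
    obtain ⟨a, ha⟩ := h1
    exact ⟨a, congrArg Subtype.val ha⟩
  -- the form vanishes
  have horth : ∀ c ∈ W (F := F) P X 0, u ⬝ᵥ (M.mulVec c) = 0 := by
    intro c hc
    have h1 := bil hD hF t X M hMg u c
    have hc1 : P.Ge (rt (k := k) X c) 1 := by
      by_cases h0 : rt (k := k) X c = 0
      · exact Or.inl h0
      · exact Or.inr (pos c h0 (((hW 0 c).1 hc).resolve_left h0))
    have hu2 : P.Ge (rt (k := k) X u) (P.ord (rt (k := k) X u)) := P.ge_ord _
    have hpw : ∀ (x : L) (w : ℤ) (j : ℕ), P.Ge x w → P.Ge (x ^ q ^ j) ((q : ℤ) ^ j * w) := by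
      intro x w j h
      have := N41.ge_pow P h (pow_ne_zero j hq0)
      push_cast at this
      exact this
    obtain ⟨w, hw⟩ : ∃ w : ℤ, w = P.ord (rt (k := k) X u) := ⟨_, rfl⟩
    rw [← hw] at hu2 uw hukA
    have hqq : (9 : ℤ) ≤ (q : ℤ) ^ 2 := by nlinarith
    have s1 : P.Ge (rt (k := k) X u ^ q ^ 2 * rt (k := k) X c -
        rt (k := k) X u * rt (k := k) X c ^ q ^ 2) 1 := by
      refine P.ge_sub (P.ge_mono (P.ge_mul (hpw _ _ 2 hu2) hc1) ?_)
        (P.ge_mono (P.ge_mul hu2 (hpw _ _ 2 hc1)) ?_)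
      · nlinarith
      · nlinarith
    have s2 : P.Ge (sB q t (rt (k := k) X u) (rt (k := k) X c)) 1 := by
      unfold sB
      refine P.ge_sub (P.ge_add s1 (P.ge_mono (N41.ge_pow P s1 hq0) (by omega))) ?_
      have hu3 := hpw _ _ 1 hu2
      have hc3 := hpw _ _ 1 hc1
      rw [pow_one, pow_one] at hu3 hc3
      refine P.ge_mono (P.ge_mul (P.ge_ord t) (P.ge_sub (n := -T + 1)
        (P.ge_mono (P.ge_mul (hpw _ _ 2 hu2) hc3) ?_)
        (P.ge_mono (P.ge_mul hu3 (hpw _ _ 2 hc1)) ?_))) ?_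
      · rw [← hukA]
        nlinarith
      · rw [← hukA]
        nlinarith
      · rw [← hT]
        omega
    rw [h1] at s2
    have s3 := coef1 P (a := algebraMap F k (u ⬝ᵥ (M.mulVec c))) s2
    exact (map_eq_zero (algebraMap F k)).1 s3
  -- the symplectic basis
  obtain ⟨h, hh, hJ, hcol⟩ := (hSC0 F M hMdet hMt hMd).1 u hu0
  obtain ⟨G₁, ρ₁, hC₁, hG₁⟩ := SC2.basis k F L 4 t X G₀ ρ h hC hh
  have hcols : ∀ i, (∑ j, cst k F L (h j i) * X j) = rt (k := k) X (fun j => h j i) :=
    fun i => rfl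
  have hcomb : ∀ c : Fin 4 → F, ∑ i, cst k F L (c i) * (∑ j, cst k F L (h j i) * X j) =
      rt (k := k) X (h.mulVec c) := by
    intro c
    unfold rt cst
    simp only [Matrix.mulVec, dotProduct, map_sum, map_mul, Finset.sum_mul, Finset.mul_sum]
    rw [Finset.sum_comm]
    refine Finset.sum_congr rfl fun l _ => Finset.sum_congr rfl fun j _ => ?_
    ring
  have hhc : ∀ c : Fin 4 → F, h.mulVec c = 0 → c = 0 := by
    intro c hc
    by_contra hne
    exact hh (Matrix.exists_mulVec_eq_zero_iff.1 ⟨c, hne, hc⟩)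
  have hue : u = h.mulVec (Pi.single 0 1) := by
    funext i
    rw [Matrix.mulVec_single_one]
    exact (hcol i).symm
  have hform : ∀ c : Fin 4 → F, u ⬝ᵥ (M.mulVec (h.mulVec c)) = c 3 := by
    intro c
    have e1 : u ⬝ᵥ (M.mulVec (h.mulVec c)) =
        (Pi.single 0 1 : Fin 4 → F) ⬝ᵥ ((h.transpose * M * h).mulVec c) := by
      have e0 : ∀ w : Fin 4 → F, (h.mulVec (Pi.single 0 1)) ⬝ᵥ w =
          (Pi.single 0 1 : Fin 4 → F) ⬝ᵥ (h.transpose.mulVec w) := fun w => by
        rw [Matrix.dotProduct_mulVec (Pi.single 0 1), Matrix.vecMul_transpose]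
      rw [hue, Matrix.mul_assoc, ← Matrix.mulVec_mulVec, ← Matrix.mulVec_mulVec, e0]
    rw [e1, hJ, single_one_dotProduct]
    simp [J4s, Matrix.mulVec, dotProduct, Fin.sum_univ_four]
  have hin0 : ∀ c : Fin 4 → F, h.mulVec c ∈ W (F := F) P X 0 → c 3 = 0 := by
    intro c hc
    rw [← hform c]
    exact horth _ hc
  have hin1 : ∀ c : Fin 4 → F, c 3 = 0 → h.mulVec c ∈ W (F := F) P X 0 := by
    -- dimension
    let U : Submodule F (Fin 4 → F) := (W (F := F) P X 0).comap h.mulVecLin
    let K : Submodule F (Fin 4 → F) := LinearMap.ker (LinearMap.proj 3 : (Fin 4 → F) →ₗ[F] F)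
    have hUK : U ≤ K := by
      intro c hc
      exact hin0 c hc
    have hbij : Function.Bijective h.mulVecLin := by
      have hinj' : Function.Injective h.mulVecLin := by
        rw [← LinearMap.ker_eq_bot, LinearMap.ker_eq_bot']
        intro c hc
        exact hhc c hc
      exact ⟨hinj', LinearMap.injective_iff_surjective.1 hinj'⟩
    have dU : Module.finrank F U = 3 := by
      rw [← d0]
      have h1 : Submodule.map h.mulVecLin U = W (F := F) P X 0 :=
        Submodule.map_comap_eq_of_surjective hbij.2 _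
      rw [← h1]
      have h2 : ((LinearEquiv.ofBijective h.mulVecLin hbij : (Fin 4 → F) ≃ₗ[F] (Fin 4 → F)) :
          (Fin 4 → F) →ₗ[F] (Fin 4 → F)) = h.mulVecLin := LinearMap.ext fun _ => rfl
      have h3 := LinearEquiv.finrank_map_eq (LinearEquiv.ofBijective h.mulVecLin hbij) U
      rw [h2] at h3
      exact h3.symm
    have dK : Module.finrank F K = 3 := by
      have h1 := LinearMap.finrank_range_add_finrank_ker
        (LinearMap.proj 3 : (Fin 4 → F) →ₗ[F] F)
      have h2 : LinearMap.range (LinearMap.proj 3 : (Fin 4 → F) →ₗ[F] F) = ⊤ :=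
        LinearMap.range_eq_top.2 (Function.surjective_eval 3)
      rw [h2, finrank_top, Module.finrank_self, Module.finrank_fin_fun] at h1
      show Module.finrank F (LinearMap.ker (LinearMap.proj 3 : (Fin 4 → F) →ₗ[F] F)) = 3
      omega
    have hUK' : U = K := Submodule.eq_of_le_of_finrank_eq hUK (by rw [dU, dK])
    intro c hc
    have h1 : c ∈ K := hc
    rw [← hUK'] at h1
    exact h1
  refine ⟨L, iL, iA, t, fun i => ∑ j, cst k F L (h j i) * X j, G₁, ρ₁, P, ?_, hC₁, ?_, ?_⟩
  · refine ⟨?_, ?_, htr, ?_⟩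
    · intro i
      have h1 := hrel fun j => h j i
      rw [hAdef, hBdef, pow_zero, pow_one, pow_one] at h1
      show rt (k := k) X (fun j => h j i) ^ q ^ 4 - t ^ q * rt (k := k) X (fun j => h j i) ^ q ^ 3 -
        0 * rt (k := k) X (fun j => h j i) ^ q ^ 2 - t * rt (k := k) X (fun j => h j i) ^ q +
        rt (k := k) X (fun j => h j i) = 0
      linear_combination h1
    · intro c hc
      exact hhc c (hind _ ((hcomb c).symm.trans hc))
    · intro i j
      show sB q t (rt (k := k) X (fun l => h l i)) (rt (k := k) X (fun l => h l j)) = _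
      rw [bil hD hF t X M hMg, ← hJ]
      congr 1
      simp only [Matrix.mul_apply, Matrix.mulVec, dotProduct, Matrix.transpose_apply,
        Finset.sum_mul, Finset.mul_sum]
      rw [Finset.sum_comm]
      refine Finset.sum_congr rfl fun l _ => Finset.sum_congr rfl fun m _ => ?_
      ring
  · intro g hg
    obtain ⟨g₀, hg₀, e⟩ := hG₁ g hg
    show g.1.transpose * J4s F * g.1 = J4s F
    rw [← hJ]
    have e1 : g.1.transpose * (h.transpose * M * h) * g.1 =
        (h * g.1).transpose * M * (h * g.1) := by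
      rw [Matrix.transpose_mul]
      simp only [Matrix.mul_assoc]
    rw [e1, ← e, Matrix.transpose_mul]
    have e2 := hMG g₀ hg₀
    calc h.transpose * g₀.1.transpose * M * (g₀.1 * h)
        = h.transpose * (g₀.1.transpose * M * g₀.1) * h := by simp only [Matrix.mul_assoc]
      _ = h.transpose * M * h := by rw [e2]
  · refine ⟨hP, ?_, ?_, ?_⟩
    · show ((q : ℤ) - 1) * P.ord (rt (k := k) X (fun j => h j 0)) = -P.ord t
      have e : (fun j => h j 0) = u := by
        funext j
        exact hcol j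
      rw [e]
      exact hukA
    · intro c hc0 hc12
      show (q : ℤ) * ((q : ℤ) + 1) *
        P.ord (∑ i, cst k F L (c i) * (∑ j, cst k F L (h j i) * X j)) = -P.ord t
      rw [hcomb c]
      have h1 := hin1 c hc0
      have h2 : ¬ h.mulVec c ∈ W (F := F) P X N := by
        intro h2
        obtain ⟨a, ha⟩ := huN _ h2
        have h3 : h.mulVec (c - a • Pi.single 0 1) = 0 := by
          rw [Matrix.mulVec_sub, Matrix.mulVec_smul, ← hue, ha, sub_self]
        have h4 := hhc _ h3
        have h5 := congrFun h4 1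
        have h6 := congrFun h4 2
        simp at h5 h6
        rcases hc12 with h7 | h7
        · exact h7 h5
        · exact h7 h6
      obtain ⟨h3, h4⟩ := P.not_ge.1 (fun h => h2 ((hW N _).2 h))
      exact fB _ h3 (((hW 0 _).1 h1).resolve_left h3) h4
    · intro c hc
      show (q : ℤ) ^ 2 * ((q : ℤ) - 1) *
        P.ord (∑ i, cst k F L (c i) * (∑ j, cst k F L (h j i) * X j)) = P.ord t
      rw [hcomb c]
      have h2 : ¬ h.mulVec c ∈ W (F := F) P X 0 := fun h2 => hc (hin0 c h2)
      obtain ⟨h3, h4⟩ := P.not_ge.1 (fun h => h2 ((hW 0 _).2 h))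
      exact fC _ h3 h4

end Pool.CND
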